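import Pool.Agent.Q160.SG.Stm

set_option autoImplicit false

/-! # Project SG: the closed form of the bound (`J_CLOSED`) -/

namespace Pool.Agent.Q129.SG

open Finset Pool.Agent.Q160.SG

lemma tele (z r : ℕ) (hz : z ≤ 1) (m : ℕ) :
    ∑ i ∈ range m, (2 * (((2 * i + z).choose (r + 1) : ℕ) : ℤ) + (((2 * i + z).choose r : ℕ) : ℤ)) =
      (((2 * m + z).choose (r + 2) : ℕ) : ℤ) := by
  induction m with
  | zero =>
    rw [Nat.choose_eq_zero_of_lt (by omega)]
    simp
  | succ m ih =>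
    rw [sum_range_succ, ih]
    have e : 2 * (m + 1) + z = (2 * m + z + 1) + 1 := by ring
    rw [e, Nat.choose_succ_succ' (2 * m + z + 1) (r + 1), Nat.choose_succ_succ' (2 * m + z) r,
      Nat.choose_succ_succ' (2 * m + z) (r + 1)]
    push_cast
    ring

lemma Phi_succ (z r : ℕ) (hz : z ≤ 1) (m : ℕ) :
    Phi z (r + 1) (m + 1) = Phi z (r + 1) m + (((2 * m + z + 1).choose (r + 2) : ℕ) : ℤ) + Phi z r m := by
  have h := tele z r hz m
  have e1 : Phi z (r + 1) (m + 1) = ∑ i ∈ range (m + 1),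
      ((2 * ((((m + 1 : ℕ) : ℤ)) - 1 - i) + 1) * ((2 * i + z).choose (r + 1) : ℕ) +
        (((m + 1 : ℕ) : ℤ) - 1 - i) * ((2 * i + z).choose r : ℕ) + Phi z r i) := rfl
  have e2 : Phi z (r + 1) m = ∑ i ∈ range m,
      ((2 * ((m : ℤ) - 1 - i) + 1) * ((2 * i + z).choose (r + 1) : ℕ) +
        ((m : ℤ) - 1 - i) * ((2 * i + z).choose r : ℕ) + Phi z r i) := rfl
  have e3 : ∑ i ∈ range m, ((2 * ((((m + 1 : ℕ) : ℤ)) - 1 - i) + 1) * ((2 * i + z).choose (r + 1) : ℕ) +
        (((m + 1 : ℕ) : ℤ) - 1 - i) * ((2 * i + z).choose r : ℕ) + Phi z r i) =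
      ∑ i ∈ range m, ((2 * ((m : ℤ) - 1 - i) + 1) * ((2 * i + z).choose (r + 1) : ℕ) +
        ((m : ℤ) - 1 - i) * ((2 * i + z).choose r : ℕ) + Phi z r i) +
      ∑ i ∈ range m, (2 * (((2 * i + z).choose (r + 1) : ℕ) : ℤ) + (((2 * i + z).choose r : ℕ) : ℤ)) := by
    rw [← sum_add_distrib]
    refine sum_congr rfl fun i _ => ?_
    push_cast
    ring
  rw [e1, sum_range_succ, e3, h, e2, Nat.choose_succ_succ' (2 * m + z) (r + 1)]
  push_cast
  ring

theorem t_CLOSED : J_CLOSED := by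
  intro z r
  induction r with
  | zero =>
    intro m hz
    show ((m : ℕ) : ℤ) = _
    have h2 : ∀ k : ℕ, (2 : ℤ) * (((k.choose 2 : ℕ)) : ℤ) = (k : ℤ) * (k - 1) := by
      intro k
      induction k with
      | zero => simp
      | succ k ih =>
        rw [Nat.choose_succ_succ' k 1, Nat.choose_one_right]
        push_cast
        linarith
    have h3 := h2 (2 * m + z)
    have h4 := h2 m
    have h5 := h2 (m + z)
    simp only [Nat.zero_add]
    push_cast at h3 h4 h5 ⊢
    have hz' : (z : ℤ) * z = z := by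
      have : z = 0 ∨ z = 1 := by omega
      rcases this with rfl | rfl <;> norm_num
    nlinarith
  | succ r ih =>
    intro m hz
    induction m with
    | zero =>
      have e : Phi z (r + 1) 0 = 0 := rfl
      have h1 : z < r + 1 + 2 := by omega
      rw [e]
      simp [Nat.choose_eq_zero_of_lt h1]
    | succ m ihm =>
      rw [Phi_succ z r hz m, ihm, ih m hz]
      have e1 : 2 * (m + 1) + z = (2 * m + z + 1) + 1 := by ring
      have e2 : m + 1 + z = m + z + 1 := by ring
      have e3 : r + 1 + 2 = (r + 2) + 1 := by ring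
      rw [e1, e2, e3, Nat.choose_succ_succ' (2 * m + z + 1) (r + 2), Nat.choose_succ_succ' (2 * m + z) (r + 2),
        Nat.choose_succ_succ' m (r + 2), Nat.choose_succ_succ' (m + z) (r + 2)]
      push_cast
      ring

end Pool.Agent.Q129.SG
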