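import Pool.Agent.Q160.SG.Stm

set_option autoImplicit false

/-! # Project SG: 4-cups and 4-caps (`J_CUPS`) -/

namespace Pool.Agent.Q129.SG

open Finset Pool.Agent.Q160.SG

lemma four {n : ℕ} (K : Finset (Fin n)) (h : K.card = 4) :
    ∃ a b c d : Fin n, a < b ∧ b < c ∧ c < d ∧ K = {a, b, c, d} := by
  refine ⟨K.orderEmbOfFin h 0, K.orderEmbOfFin h 1, K.orderEmbOfFin h 2, K.orderEmbOfFin h 3,
    (K.orderEmbOfFin h).strictMono (by decide), (K.orderEmbOfFin h).strictMono (by decide),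
    (K.orderEmbOfFin h).strictMono (by decide), ?_⟩
  have e := Finset.image_orderEmbOfFin_univ K h
  have e2 : (univ : Finset (Fin 4)) = {0, 1, 2, 3} := by decide
  rw [e2, image_insert, image_insert, image_insert, image_singleton] at e
  exact e.symm

lemma sorted3 {n : ℕ} {a b c a' b' c' : Fin n} (h1 : a < b) (h2 : b < c) (h1' : a' < b') (h2' : b' < c')
    (h : ({a, b, c} : Finset (Fin n)) = {a', b', c'}) : a = a' ∧ b = b' ∧ c = c' := by
  have k1 : a ∈ ({a', b', c'} : Finset (Fin n)) := by rw [← h]; simp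
  have k2 : b ∈ ({a', b', c'} : Finset (Fin n)) := by rw [← h]; simp
  have k3 : c ∈ ({a', b', c'} : Finset (Fin n)) := by rw [← h]; simp
  simp only [mem_insert, mem_singleton, Fin.ext_iff] at k1 k2 k3
  simp only [Fin.lt_def] at h1 h2 h1' h2'
  simp only [Fin.ext_iff]
  omega

lemma sorted4 {n : ℕ} {a b c d a' b' c' d' : Fin n} (h1 : a < b) (h2 : b < c) (h3 : c < d) (h1' : a' < b')
    (h2' : b' < c') (h3' : c' < d') (h : ({a, b, c, d} : Finset (Fin n)) = {a', b', c', d'}) :
    a = a' ∧ b = b' ∧ c = c' ∧ d = d' := by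
  have k1 : a ∈ ({a', b', c', d'} : Finset (Fin n)) := by rw [← h]; simp
  have k2 : b ∈ ({a', b', c', d'} : Finset (Fin n)) := by rw [← h]; simp
  have k3 : c ∈ ({a', b', c', d'} : Finset (Fin n)) := by rw [← h]; simp
  have k4 : d ∈ ({a', b', c', d'} : Finset (Fin n)) := by rw [← h]; simp
  simp only [mem_insert, mem_singleton, Fin.ext_iff] at k1 k2 k3 k4
  simp only [Fin.lt_def] at h1 h2 h3 h1' h2' h3'
  simp only [Fin.ext_iff]
  omega

lemma dropMax4 {n : ℕ} {a b c d : Fin n} (h1 : a < b) (h2 : b < c) (h3 : c < d) :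
    dropMax ({a, b, c, d} : Finset (Fin n)) = {a, b, c} := by
  ext x
  simp only [dropMax, mem_filter, mem_insert, mem_singleton, exists_eq_or_imp, exists_eq_left]
  simp only [Fin.ext_iff, Fin.lt_def] at *
  omega

lemma dropMin4 {n : ℕ} {a b c d : Fin n} (h1 : a < b) (h2 : b < c) (h3 : c < d) :
    dropMin ({a, b, c, d} : Finset (Fin n)) = {b, c, d} := by
  ext x
  simp only [dropMin, mem_filter, mem_insert, mem_singleton, exists_eq_or_imp, exists_eq_left]
  simp only [Fin.ext_iff, Fin.lt_def] at *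
  omega

/-- the predicate of `cupsCaps` -/
def Pr {n : ℕ} (x y : Fin n → ℝ) (p : Fin n × Fin n × Fin n × Fin n) : Prop :=
  p.1 < p.2.1 ∧ p.2.1 < p.2.2.1 ∧ p.2.2.1 < p.2.2.2 ∧
    ((0 < area x y p.1 p.2.1 p.2.2.1 ∧ 0 < area x y p.2.1 p.2.2.1 p.2.2.2) ∨
     (area x y p.1 p.2.1 p.2.2.1 < 0 ∧ area x y p.2.1 p.2.2.1 p.2.2.2 < 0))

open Classical in
lemma cupsCaps_eq {n : ℕ} (x y : Fin n → ℝ) : cupsCaps x y = (univ.filter (Pr x y)).card := by
  have h : cupsCaps x y = Nat.card {p // Pr x y p} := rfl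
  rw [h, Nat.card_eq_fintype_card, Fintype.card_subtype]

/-- the set of a quadruple -/
def toSet {n : ℕ} (p : Fin n × Fin n × Fin n × Fin n) : Finset (Fin n) := {p.1, p.2.1, p.2.2.1, p.2.2.2}

open Classical in
/-- the colouring of the triples by the sign of the area -/
noncomputable def col {n : ℕ} (x y : Fin n → ℝ) (S : Finset (Fin n)) : Bool :=
  decide (∃ a b c : Fin n, a < b ∧ b < c ∧ S = {a, b, c} ∧ 0 < area x y a b c)

lemma col_eq {n : ℕ} (x y : Fin n → ℝ) {a b c : Fin n} (h1 : a < b) (h2 : b < c) :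
    col x y {a, b, c} = true ↔ 0 < area x y a b c := by
  unfold col
  rw [decide_eq_true_iff]
  constructor
  · rintro ⟨a', b', c', h1', h2', h, h3⟩
    obtain ⟨rfl, rfl, rfl⟩ := sorted3 h1 h2 h1' h2' h
    exact h3
  · intro h
    exact ⟨a, b, c, h1, h2, rfl, h⟩

lemma part1 {n : ℕ} (h : ∀ c : Finset (Fin n) → Bool,
    (n / 2).choose 4 + ((n + 1) / 2).choose 4 ≤ (mono 4 c univ).card) (x y : Fin n → ℝ)
    (hg : ∀ a b c, a < b → b < c → area x y a b c ≠ 0) :
    (n / 2).choose 4 + ((n + 1) / 2).choose 4 ≤ cupsCaps x y := by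
  classical
  refine (h (col x y)).trans ?_
  rw [cupsCaps_eq]
  refine (card_le_card (t := (univ.filter (Pr x y)).image toSet) ?_).trans card_image_le
  intro K hK
  rw [mono, mem_filter, mem_powersetCard] at hK
  obtain ⟨⟨-, hc⟩, hcol⟩ := hK
  obtain ⟨a, b, c, d, h1, h2, h3, rfl⟩ := four K hc
  rw [dropMax4 h1 h2 h3, dropMin4 h1 h2 h3] at hcol
  rw [mem_image]
  refine ⟨(a, b, c, d), ?_, rfl⟩
  rw [mem_filter]
  refine ⟨mem_univ _, h1, h2, h3, ?_⟩
  simp only
  have e1 := col_eq x y h1 h2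
  have e2 := col_eq x y h2 h3
  rw [hcol] at e1
  rcases lt_trichotomy 0 (area x y a b c) with h4 | h4 | h4
  · exact Or.inl ⟨h4, e2.1 (e1.2 h4)⟩
  · exact absurd h4.symm (hg a b c h1 h2)
  · right
    refine ⟨h4, ?_⟩
    rcases lt_trichotomy 0 (area x y b c d) with h5 | h5 | h5
    · exact absurd (e1.1 (e2.2 h5)) (not_lt.2 h4.le)
    · exact absurd h5.symm (hg b c d h2 h3)
    · exact h5

/-- the heights of the example -/
def yy (n : ℕ) (i : Fin n) : ℝ := if i.val < n / 2 then (i.val : ℝ) ^ 2 else -(i.val : ℝ) ^ 2 - (n : ℝ) ^ 2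

/-- the abscissas of the example -/
def xx (n : ℕ) (i : Fin n) : ℝ := (i.val : ℝ)

lemma area_pos {n : ℕ} {a b c : Fin n} (h1 : a < b) (h2 : b < c)
    (h : c.val < n / 2 ∨ (a.val < n / 2 ∧ n / 2 ≤ b.val)) : 0 < area (xx n) (yy n) a b c := by
  have r1 : (a.val : ℝ) < b.val := by exact_mod_cast h1
  have r2 : (b.val : ℝ) < c.val := by exact_mod_cast h2
  have r0 : (0 : ℝ) ≤ a.val := Nat.cast_nonneg _
  have rn : (c.val : ℝ) < n := by exact_mod_cast c.2
  have l1 := Fin.lt_def.1 h1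
  have l2 := Fin.lt_def.1 h2
  unfold area xx yy
  rcases h with h | ⟨h, h'⟩
  · rw [if_pos (by omega), if_pos (by omega), if_pos (by omega)]
    have e : ((b.val : ℝ) - a.val) * ((c.val : ℝ) ^ 2 - (b.val : ℝ) ^ 2) -
        ((b.val : ℝ) ^ 2 - (a.val : ℝ) ^ 2) * ((c.val : ℝ) - b.val) =
        ((b.val : ℝ) - a.val) * ((c.val : ℝ) - b.val) * ((c.val : ℝ) - a.val) := by ring
    rw [e]
    have k1 : (0 : ℝ) < (b.val : ℝ) - a.val := by linarith
    have k2 : (0 : ℝ) < (c.val : ℝ) - b.val := by linarith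
    have k3 : (0 : ℝ) < (c.val : ℝ) - a.val := by linarith
    positivity
  · rw [if_pos h, if_neg (by omega), if_neg (by omega)]
    have e : ((b.val : ℝ) - a.val) * ((-(c.val : ℝ) ^ 2 - (n : ℝ) ^ 2) - (-(b.val : ℝ) ^ 2 - (n : ℝ) ^ 2)) -
        ((-(b.val : ℝ) ^ 2 - (n : ℝ) ^ 2) - (a.val : ℝ) ^ 2) * ((c.val : ℝ) - b.val) =
        ((c.val : ℝ) - b.val) * ((n : ℝ) ^ 2 - b.val * c.val + a.val * (b.val + c.val) + (a.val : ℝ) ^ 2) := by ring
    rw [e]
    have k2 : (0 : ℝ) < (c.val : ℝ) - b.val := by linarith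
    refine mul_pos k2 ?_
    have k4 : (b.val : ℝ) * c.val < (n : ℝ) ^ 2 := by nlinarith
    have k5 : 0 ≤ (a.val : ℝ) * (b.val + c.val) := mul_nonneg r0 (by linarith)
    nlinarith [sq_nonneg (a.val : ℝ)]

lemma area_neg {n : ℕ} {a b c : Fin n} (h1 : a < b) (h2 : b < c)
    (h : n / 2 ≤ a.val ∨ (b.val < n / 2 ∧ n / 2 ≤ c.val)) : area (xx n) (yy n) a b c < 0 := by
  have r1 : (a.val : ℝ) < b.val := by exact_mod_cast h1
  have r2 : (b.val : ℝ) < c.val := by exact_mod_cast h2
  have r0 : (0 : ℝ) ≤ a.val := Nat.cast_nonneg _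
  have l1 := Fin.lt_def.1 h1
  have l2 := Fin.lt_def.1 h2
  unfold area xx yy
  rcases h with h | ⟨h, h'⟩
  · rw [if_neg (by omega), if_neg (by omega), if_neg (by omega)]
    have e : ((b.val : ℝ) - a.val) * ((-(c.val : ℝ) ^ 2 - (n : ℝ) ^ 2) - (-(b.val : ℝ) ^ 2 - (n : ℝ) ^ 2)) -
        ((-(b.val : ℝ) ^ 2 - (n : ℝ) ^ 2) - (-(a.val : ℝ) ^ 2 - (n : ℝ) ^ 2)) * ((c.val : ℝ) - b.val) =
        -(((b.val : ℝ) - a.val) * ((c.val : ℝ) - b.val) * ((c.val : ℝ) - a.val)) := by ring
    rw [e, neg_lt_zero]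
    have k1 : (0 : ℝ) < (b.val : ℝ) - a.val := by linarith
    have k2 : (0 : ℝ) < (c.val : ℝ) - b.val := by linarith
    have k3 : (0 : ℝ) < (c.val : ℝ) - a.val := by linarith
    positivity
  · rw [if_pos (show a.val < n / 2 by omega), if_pos h, if_neg (show ¬ c.val < n / 2 by omega)]
    have k1 : (0 : ℝ) < (b.val : ℝ) - a.val := by linarith
    have k2 : (0 : ℝ) < (c.val : ℝ) - b.val := by linarith
    have k6 : (0 : ℝ) < c.val := by linarith
    have k3 : (0 : ℝ) < (c.val : ℝ) ^ 2 + (n : ℝ) ^ 2 + (b.val : ℝ) ^ 2 := by positivity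
    have k4 : 0 ≤ ((b.val : ℝ) ^ 2 - (a.val : ℝ) ^ 2) * ((c.val : ℝ) - b.val) := by
      refine mul_nonneg ?_ k2.le
      nlinarith
    nlinarith [mul_pos k1 k3]

theorem t_CUPS : J_CUPS := by
  intro hm
  have p1 : ∀ (n : ℕ) (x y : Fin n → ℝ), StrictMono x → (∀ a b c, a < b → b < c → area x y a b c ≠ 0) →
    (n / 2).choose 4 + ((n + 1) / 2).choose 4 ≤ cupsCaps x y := fun n x y _ hg => part1 (hm n) x y hg
  refine ⟨p1, fun n => ⟨xx n, yy n, ?_, ?_, ?_⟩⟩
  · intro a b h
    unfold xx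
    exact_mod_cast h
  · intro a b c h1 h2
    have l1 := Fin.lt_def.1 h1
    have l2 := Fin.lt_def.1 h2
    by_cases ha : a.val < n / 2
    · by_cases hb : b.val < n / 2
      · by_cases hc : c.val < n / 2
        · exact (area_pos h1 h2 (Or.inl hc)).ne'
        · exact (area_neg h1 h2 (Or.inr ⟨hb, not_lt.1 hc⟩)).ne
      · exact (area_pos h1 h2 (Or.inr ⟨ha, not_lt.1 hb⟩)).ne'
    · exact (area_neg h1 h2 (Or.inl (not_lt.1 ha))).ne
  · classical
    refine le_antisymm ?_ (p1 n (xx n) (yy n) ?_ ?_)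
    · rw [cupsCaps_eq]
      set L : Finset (Fin n) := univ.filter (fun i => i.val < n / 2) with hL
      set R : Finset (Fin n) := univ.filter (fun i => ¬ i.val < n / 2) with hR
      have cL : L.card = n / 2 := by
        rw [hL, Fin.card_filter_val_lt]
        omega
      have cR : R.card = (n + 1) / 2 := by
        have h1 := Finset.card_filter_add_card_filter_not (s := (univ : Finset (Fin n))) (fun i => i.val < n / 2)
        rw [← hL, ← hR, cL, card_univ, Fintype.card_fin] at h1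
        omega
      have h1 : ((univ.filter (Pr (xx n) (yy n))).image toSet).card = (univ.filter (Pr (xx n) (yy n))).card := by
        refine card_image_of_injOn ?_
        rintro ⟨a, b, c, d⟩ hp ⟨a', b', c', d'⟩ hp' h
        rw [mem_coe, mem_filter] at hp hp'
        obtain ⟨-, q1, q2, q3, -⟩ := hp
        obtain ⟨-, q1', q2', q3', -⟩ := hp'
        obtain ⟨rfl, rfl, rfl, rfl⟩ := sorted4 q1 q2 q3 q1' q2' q3' h
        rfl
      rw [← h1, ← cL, ← cR, ← card_powersetCard, ← card_powersetCard]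
      refine (card_le_card ?_).trans (card_union_le _ _)
      intro K hK
      rw [mem_image] at hK
      obtain ⟨⟨a, b, c, d⟩, hp, rfl⟩ := hK
      rw [mem_filter] at hp
      obtain ⟨-, q1, q2, q3, q4⟩ := hp
      simp only at q1 q2 q3 q4
      have l1 := Fin.lt_def.1 q1
      have l2 := Fin.lt_def.1 q2
      have l3 := Fin.lt_def.1 q3
      have c4 : (toSet (a, b, c, d)).card = 4 := by
        unfold toSet
        simp only
        rw [card_insert_of_notMem, card_insert_of_notMem, card_insert_of_notMem, card_singleton]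
        · simp only [mem_singleton, Fin.ext_iff]; omega
        · simp only [mem_insert, mem_singleton, Fin.ext_iff]; omega
        · simp only [mem_insert, mem_singleton, Fin.ext_iff]; omega
      rw [mem_union, mem_powersetCard, mem_powersetCard]
      by_cases hd : d.val < n / 2
      · left
        refine ⟨?_, c4⟩
        intro x hx
        simp only [toSet, mem_insert, mem_singleton] at hx
        rw [hL, mem_filter]
        refine ⟨mem_univ _, ?_⟩
        rcases hx with rfl | rfl | rfl | rfl <;> omega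
      · by_cases ha : a.val < n / 2
        · exfalso
          by_cases hb : b.val < n / 2
          · by_cases hc : c.val < n / 2
            · have s1 := area_pos (n := n) q1 q2 (Or.inl hc)
              have s2 := area_neg (n := n) q2 q3 (Or.inr ⟨hc, not_lt.1 hd⟩)
              rcases q4 with ⟨_, q⟩ | ⟨q, _⟩ <;> linarith
            · have s1 := area_neg (n := n) q1 q2 (Or.inr ⟨hb, not_lt.1 hc⟩)
              have s2 := area_pos (n := n) q2 q3 (Or.inr ⟨hb, not_lt.1 hc⟩)
              rcases q4 with ⟨q, _⟩ | ⟨_, q⟩ <;> linarith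
          · have s1 := area_pos (n := n) q1 q2 (Or.inr ⟨ha, not_lt.1 hb⟩)
            have s2 := area_neg (n := n) q2 q3 (Or.inl (not_lt.1 hb))
            rcases q4 with ⟨_, q⟩ | ⟨q, _⟩ <;> linarith
        · right
          refine ⟨?_, c4⟩
          intro x hx
          simp only [toSet, mem_insert, mem_singleton] at hx
          rw [hR, mem_filter]
          refine ⟨mem_univ _, ?_⟩
          rcases hx with rfl | rfl | rfl | rfl <;> omega
    · intro a b h
      unfold xx
      exact_mod_cast h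
    · intro a b c h1 h2
      have l1 := Fin.lt_def.1 h1
      have l2 := Fin.lt_def.1 h2
      by_cases ha : a.val < n / 2
      · by_cases hb : b.val < n / 2
        · by_cases hc : c.val < n / 2
          · exact (area_pos h1 h2 (Or.inl hc)).ne'
          · exact (area_neg h1 h2 (Or.inr ⟨hb, not_lt.1 hc⟩)).ne
        · exact (area_pos h1 h2 (Or.inr ⟨ha, not_lt.1 hb⟩)).ne'
      · exact (area_neg h1 h2 (Or.inl (not_lt.1 ha))).ne

end Pool.Agent.Q129.SG
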